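import Mathlib

/-!
# There is no nonprincipal idempotent for the second ultrafilter exponentiation (MP_36fb0d_co)

`E2 p q` is the ultrafilter with `A ∈ E2 p q ↔ {n | {m | m ^ n ∈ A} ∈ q} ∈ p`. We show that
`E2 p p = p` forces `p` to be the principal ultrafilter of `1`.

The idea: from `E2 p p = p` we construct a function `c : ℕ+ → ℕ` with `c (m ^ n) = c n + 1` for
`p`-almost all `m` (for `p`-almost every `n`), which is impossible, as one sees by looking at the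
set of `x` with `c x` even. The function `c` is a rank function of a `2`-adic decoding map: for
even numbers one can recover the exponent of `m ^ n` up to the valuation from the `2`-adic valuation
of the `2`-adic valuation, for odd numbers from the leading unit of `m ^ (2 * n) - 1`.
-/

namespace Pool.Agent.Results.MP_36fb0d_co.NoIdempotent

open Filter Set Topology

/-- The second exponentiation: `A ∈ E2 p q ↔ {n | {m | m ^ n ∈ A} ∈ q} ∈ p`. -/
def E2 (p q : Ultrafilter ℕ+) : Ultrafilter ℕ+ := p.bind fun n => q.map fun m : ℕ+ => m ^ (n : ℕ)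

theorem mem_E2 (p q : Ultrafilter ℕ+) (A : Set ℕ+) :
    A ∈ E2 p q ↔ {n : ℕ+ | {m : ℕ+ | m ^ (n : ℕ) ∈ A} ∈ q} ∈ p := Iff.rfl

theorem ev_iff (p : Ultrafilter ℕ+) (h : E2 p p = p) (P : ℕ+ → Prop) :
    (∀ᶠ x in (p : Filter ℕ+), P x) ↔
      ∀ᶠ n : ℕ+ in (p : Filter ℕ+), ∀ᶠ m : ℕ+ in (p : Filter ℕ+), P (m ^ (n : ℕ)) := by
  have h1 : {x | P x} ∈ E2 p p ↔ {x | P x} ∈ p := by rw [h]
  exact h1.symm

theorem parity (p : Ultrafilter ℕ+) (h : E2 p p = p) (c : ℕ+ → ℕ)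
    (hc : ∀ᶠ n : ℕ+ in (p : Filter ℕ+), ∀ᶠ m : ℕ+ in (p : Filter ℕ+), c (m ^ (n : ℕ)) = c n + 1) :
    False := by
  have h1 := ev_iff p h (fun x => Even (c x))
  have h2 : (∀ᶠ n : ℕ+ in (p : Filter ℕ+), ∀ᶠ m : ℕ+ in (p : Filter ℕ+), Even (c (m ^ (n : ℕ)))) ↔
      ∀ᶠ n : ℕ+ in (p : Filter ℕ+), ¬ Even (c n) := by
    constructor
    · intro h3
      filter_upwards [hc, h3] with n hn1 hn2
      obtain ⟨m, hm1, hm2⟩ := (hn1.and hn2).exists
      rw [hm1, Nat.even_add_one] at hm2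
      exact hm2
    · intro h3
      filter_upwards [hc, h3] with n hn1 hn2
      filter_upwards [hn1] with m hm
      rw [hm, Nat.even_add_one]
      exact hn2
  rw [h2, Ultrafilter.eventually_not] at h1
  exact iff_not_self h1

/-! ### `2`-adic preliminaries -/

theorem dvd_iff {x : ℤ_[2]} (hx : x ≠ 0) (n : ℕ) : (2 : ℤ_[2]) ^ n ∣ x ↔ n ≤ x.valuation := by
  have h := PadicInt.mem_span_pow_iff_le_valuation (p := 2) x hx n
  rw [Ideal.mem_span_singleton] at h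
  exact_mod_cast h

theorem val_near {y z : ℤ_[2]} (hy : y ≠ 0) {K : ℕ} (hK : y.valuation < K)
    (h : (2 : ℤ_[2]) ^ K ∣ z - y) : z ≠ 0 ∧ z.valuation = y.valuation := by
  have h1 : ∀ j, j ≤ K → ((2 : ℤ_[2]) ^ j ∣ z ↔ (2 : ℤ_[2]) ^ j ∣ y) := by
    intro j hj
    have h2 : (2 : ℤ_[2]) ^ j ∣ z - y := (pow_dvd_pow _ hj).trans h
    exact (dvd_iff_dvd_of_dvd_sub h2)
  have hz : z ≠ 0 := by
    rintro rfl
    have := (h1 K le_rfl).1 (dvd_zero _)
    rw [dvd_iff hy] at this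
    omega
  refine ⟨hz, le_antisymm ?_ ?_⟩
  · by_contra hcon
    push Not at hcon
    have h3 := (h1 (y.valuation + 1) hK).1 ((dvd_iff hz _).2 hcon)
    rw [dvd_iff hy] at h3
    omega
  · exact (dvd_iff hz _).1 ((h1 _ hK.le).2 ((dvd_iff hy _).2 le_rfl))

theorem exists_lim (p : Ultrafilter ℕ+) (f : ℕ+ → ℤ_[2]) :
    ∃ α : ℤ_[2], ∀ K : ℕ, ∀ᶠ m in (p : Filter ℕ+), (2 : ℤ_[2]) ^ K ∣ f m - α := by
  have h1 := (p.map f).le_nhds_lim
  refine ⟨(p.map f).lim, fun K => ?_⟩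
  have h2 : Metric.closedBall (p.map f).lim ((2 : ℝ) ^ (-(K : ℤ))) ∈ nhds (p.map f).lim :=
    Metric.closedBall_mem_nhds _ (by positivity)
  have h3 : ∀ᶠ m in (p : Filter ℕ+), f m ∈ Metric.closedBall (p.map f).lim ((2 : ℝ) ^ (-(K : ℤ))) :=
    h1 h2
  filter_upwards [h3] with m hm
  rw [Metric.mem_closedBall, dist_eq_norm] at hm
  have h4 := (PadicInt.norm_le_pow_iff_mem_span_pow (p := 2) (f m - (p.map f).lim) K).1
    (by exact_mod_cast hm)
  rw [Ideal.mem_span_singleton] at h4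
  exact_mod_cast h4

/-! ### Even numbers -/

/-- The valuation of `t - α`. -/
noncomputable def gam (α : ℤ_[2]) (t : ℕ) : ℕ := ((t : ℤ_[2]) - α).valuation

open Classical in
/-- The rank function of the decoding map `gam`. -/
noncomputable def c0 (α : ℤ_[2]) (t : ℕ) : ℕ :=
  if h : ((t : ℤ_[2]) - α ≠ 0 ∧ gam α t < t) then c0 α (gam α t) + 1 else 0
termination_by t
decreasing_by exact h.2

theorem c0_eq {α : ℤ_[2]} {t : ℕ} (h1 : (t : ℤ_[2]) - α ≠ 0) (h2 : gam α t < t) :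
    c0 α t = c0 α (gam α t) + 1 := by
  rw [c0, dif_pos ⟨h1, h2⟩]

theorem valuation_natCast (n : ℕ) : ((n : ℕ) : ℤ_[2]).valuation = padicValNat 2 n := by
  have h1 := PadicInt.valuation_coe ((n : ℕ) : ℤ_[2])
  rw [PadicInt.coe_natCast, Padic.valuation_natCast] at h1
  exact_mod_cast h1.symm

theorem padicValNat_lt (x : ℕ) (hx : x ≠ 0) : padicValNat 2 x < x :=
  lt_of_lt_of_le (Nat.lt_pow_self (by norm_num)) (Nat.le_of_dvd (by omega) pow_padicValNat_dvd)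

theorem even_case (p : Ultrafilter ℕ+) (h : E2 p p = p)
    (he : ∀ᶠ n : ℕ+ in (p : Filter ℕ+), 2 ∣ (n : ℕ)) : False := by
  obtain ⟨α, hα⟩ := exists_lim p (fun m => ((padicValNat 2 (padicValNat 2 (m : ℕ)) : ℕ) : ℤ_[2]))
  refine parity p h (fun x => c0 α (padicValNat 2 (padicValNat 2 (x : ℕ)))) ?_
  filter_upwards [he] with n hn
  filter_upwards [he, hα (padicValNat 2 (padicValNat 2 (n : ℕ)) + 1)] with m hm hmα
  have ha : 1 ≤ padicValNat 2 (n : ℕ) := one_le_padicValNat_of_dvd n.ne_zero hn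
  have ham : 1 ≤ padicValNat 2 (m : ℕ) := one_le_padicValNat_of_dvd m.ne_zero hm
  have hw : padicValNat 2 (padicValNat 2 ((m ^ (n : ℕ) : ℕ+) : ℕ)) =
      padicValNat 2 (n : ℕ) + padicValNat 2 (padicValNat 2 (m : ℕ)) := by
    rw [PNat.pow_coe, padicValNat.pow, padicValNat.mul n.ne_zero (by omega)]
  have hne : ((padicValNat 2 (n : ℕ) : ℕ) : ℤ_[2]) ≠ 0 := by
    have : padicValNat 2 (n : ℕ) ≠ 0 := by omega
    exact_mod_cast this
  have hval := valuation_natCast (padicValNat 2 (n : ℕ))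
  have hnear := val_near hne (K := padicValNat 2 (padicValNat 2 (n : ℕ)) + 1)
    (z := ((padicValNat 2 (padicValNat 2 ((m ^ (n : ℕ) : ℕ+) : ℕ)) : ℕ) : ℤ_[2]) - α)
    (by rw [hval]; omega) (by
      rw [hw, Nat.cast_add]
      convert hmα using 1
      ring)
  have hgam : gam α (padicValNat 2 (padicValNat 2 ((m ^ (n : ℕ) : ℕ+) : ℕ))) =
      padicValNat 2 (padicValNat 2 (n : ℕ)) := by
    rw [gam, hnear.2, hval]
  have hlt := padicValNat_lt (padicValNat 2 (n : ℕ)) (by omega)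
  rw [c0_eq hnear.1 (by rw [hgam, hw]; omega), hgam]

/-! ### Odd numbers -/

theorem two_pow_dvd (p : Ultrafilter ℕ+) (h : E2 p p = p)
    (h1 : ∀ᶠ n : ℕ+ in (p : Filter ℕ+), (n : ℕ) ≠ 1)
    (ho : ∀ᶠ n : ℕ+ in (p : Filter ℕ+), ¬ 2 ∣ (n : ℕ)) (N : ℕ) :
    ∀ᶠ m : ℕ+ in (p : Filter ℕ+), (2 : ℤ) ^ N ∣ (m : ℤ) ^ 2 - 1 := by
  by_contra hcon
  rw [← Ultrafilter.eventually_not] at hcon
  obtain ⟨α, hα⟩ := exists_lim p (fun m => ((m : ℕ) : ℤ_[2]))
  have h2 := (ev_iff p h (fun x => (2 : ℤ_[2]) ^ (2 * N) ∣ ((x : ℕ) : ℤ_[2]) - α)).1 (hα (2 * N))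
  obtain ⟨n, ⟨hn2, hn1, hno⟩, hncon⟩ := ((h2.and (h1.and ho)).and hcon).exists
  obtain ⟨m, ⟨⟨hm2, hm1, hmo⟩, hmcon⟩, hmα⟩ :=
    (((hn2.and (h1.and ho)).and hcon).and (hα (2 * N))).exists
  -- `2 ^ (2 * N)` divides `m ^ n - m`
  have h3 : (2 : ℤ_[2]) ^ (2 * N) ∣ (((m : ℤ) ^ (n : ℕ) - (m : ℤ) : ℤ) : ℤ_[2]) := by
    have h4 := dvd_sub hm2 hmα
    rw [PNat.pow_coe] at h4
    convert h4 using 1
    push_cast
    ring
  have h4 : (2 : ℤ) ^ (2 * N) ∣ (m : ℤ) ^ (n : ℕ) - (m : ℤ) := by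
    have := (PadicInt.pow_p_dvd_int_iff (p := 2) (2 * N) ((m : ℤ) ^ (n : ℕ) - (m : ℤ))).1
      (by exact_mod_cast h3)
    exact_mod_cast this
  obtain ⟨k, hk⟩ : ∃ k, (n : ℕ) = 2 * k + 1 := ⟨(n : ℕ) / 2, by omega⟩
  have hmo' : ¬ (2 : ℤ) ∣ (m : ℤ) := by
    intro hd
    exact hmo (by exact_mod_cast hd)
  have h5 : (m : ℤ) ^ (n : ℕ) - (m : ℤ) = (m : ℤ) * (((m : ℤ) ^ 2) ^ k - 1 ^ k) := by
    rw [hk, one_pow]
    ring
  have h6 : (2 : ℤ) ^ (2 * N) ∣ ((m : ℤ) ^ 2) ^ k - 1 ^ k := by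
    rw [h5] at h4
    refine (IsCoprime.dvd_of_dvd_mul_left (IsCoprime.pow_left ?_) h4)
    exact (Int.prime_two.coprime_iff_not_dvd).2 hmo'
  have h7 : (4 : ℤ) ∣ (m : ℤ) ^ 2 - 1 := by
    obtain ⟨j, hj⟩ : ∃ j : ℤ, (m : ℤ) = 2 * j + 1 := ⟨(m : ℤ) / 2, by omega⟩
    rw [hj]
    exact ⟨j ^ 2 + j, by ring⟩
  have h8 := Int.two_pow_sub_pow' k h7 (by
    intro hd
    exact hmo' (Int.prime_two.dvd_of_dvd_pow hd))
  have h9 : emultiplicity 2 ((m : ℤ) ^ 2 - 1) < N := by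
    rw [emultiplicity_lt_iff_not_dvd]
    exact hmcon
  have h10 : emultiplicity (2 : ℤ) (k : ℤ) < N := by
    rw [emultiplicity_lt_iff_not_dvd]
    intro hd
    apply hncon
    have : ((n : ℕ) : ℤ) ^ 2 - 1 = (k : ℤ) * (4 * k + 4) := by
      rw [hk]
      push_cast
      ring
    rw [this]
    exact dvd_mul_of_dvd_left hd _
  have h11 : ((2 * N : ℕ) : ℕ∞) ≤ emultiplicity 2 (((m : ℤ) ^ 2) ^ k - 1 ^ k) :=
    le_emultiplicity_of_pow_dvd h6
  rw [h8] at h11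
  have h12 : emultiplicity 2 ((m : ℤ) ^ 2 - 1) + emultiplicity (2 : ℤ) (k : ℤ) < (N : ℕ∞) + N :=
    ENat.add_lt_add h9 h10
  refine absurd (h11.trans_lt h12) ?_
  rw [not_lt]
  norm_cast
  omega

/-- `y ^ 2 - 1`. -/
noncomputable def S (y : ℤ_[2]) : ℤ_[2] := y ^ 2 - 1

/-- The valuation of `y ^ 2 - 1`. -/
noncomputable def val (y : ℤ_[2]) : ℕ := (S y).valuation

open Classical in
/-- The unit part of `y ^ 2 - 1`. -/
noncomputable def q (y : ℤ_[2]) : ℤ_[2] :=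
  if h : S y ≠ 0 then (PadicInt.unitCoeff h : ℤ_[2]) else 0

theorem q_spec {y : ℤ_[2]} (h : S y ≠ 0) : S y = q y * 2 ^ val y := by
  have h1 := PadicInt.unitCoeff_spec h
  rw [q, dif_pos h, val]
  exact_mod_cast h1

theorem q_unit {y : ℤ_[2]} (h : S y ≠ 0) : IsUnit (q y) := by
  rw [q, dif_pos h]
  exact Units.isUnit _

theorem S_sub_dvd {y z : ℤ_[2]} {K : ℕ} (h : (2 : ℤ_[2]) ^ K ∣ z - y) :
    (2 : ℤ_[2]) ^ K ∣ S z - S y := by
  have : S z - S y = (z - y) * (z + y) := by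
    rw [S, S]
    ring
  rw [this]
  exact dvd_mul_of_dvd_left h _

theorem near {y z : ℤ_[2]} (hy : S y ≠ 0) {K : ℕ} (hK : val y < K)
    (h : (2 : ℤ_[2]) ^ K ∣ z - y) :
    S z ≠ 0 ∧ val z = val y ∧ (2 : ℤ_[2]) ^ (K - val y) ∣ q z - q y := by
  obtain ⟨h1, h2⟩ := val_near hy hK (S_sub_dvd h)
  have h2' : val z = val y := h2
  refine ⟨h1, h2', ?_⟩
  have h3 : (2 : ℤ_[2]) ^ (K - val y) * 2 ^ val y ∣ (q z - q y) * 2 ^ val y := by
    rw [← pow_add, Nat.sub_add_cancel hK.le, sub_mul, ← q_spec hy, ← h2', ← q_spec h1]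
    exact S_sub_dvd h
  exact (mul_dvd_mul_iff_right (pow_ne_zero _ two_ne_zero)).1 h3

open Classical in
/-- The rank function of the decoding map `y ↦ b * q y`. -/
noncomputable def c (b : ℤ_[2]) (y : ℤ_[2]) : ℕ :=
  if h : S (b * q y) ≠ 0 ∧ val (b * q y) < val y then c b (b * q y) + 1 else 0
termination_by val y
decreasing_by exact h.2

theorem c_eq {b y : ℤ_[2]} (h1 : S (b * q y) ≠ 0) (h2 : val (b * q y) < val y) :
    c b y = c b (b * q y) + 1 := by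
  rw [c, dif_pos ⟨h1, h2⟩]

theorem c_eq_zero {b y : ℤ_[2]} (h : ¬ (S (b * q y) ≠ 0 ∧ val (b * q y) < val y)) :
    c b y = 0 := by
  rw [c, dif_neg h]

theorem c_locally_const (b : ℤ_[2]) (N : ℕ) : ∀ y : ℤ_[2], val y ≤ N → S y ≠ 0 →
    ∃ K : ℕ, ∀ z, (2 : ℤ_[2]) ^ K ∣ z - y → c b z = c b y := by
  induction N using Nat.strong_induction_on with
  | _ N ih =>
  intro y hyN hy
  have hdiv : ∀ L : ℕ, ∀ z, (2 : ℤ_[2]) ^ (L + val y + 1) ∣ z - y →
      val z = val y ∧ (2 : ℤ_[2]) ^ L ∣ b * q z - b * q y := by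
    intro L z hz
    obtain ⟨-, h1, h2⟩ := near hy (by omega) hz
    refine ⟨h1, ?_⟩
    rw [← mul_sub]
    refine dvd_mul_of_dvd_right ((pow_dvd_pow _ ?_).trans h2) _
    omega
  by_cases h0 : S (b * q y) = 0
  · refine ⟨val y + val y + 1, fun z hz => ?_⟩
    obtain ⟨h1, h2⟩ := hdiv (val y) z hz
    rw [c_eq_zero (y := y) (by simp [h0]), c_eq_zero]
    rintro ⟨h3, h4⟩
    have h5 := S_sub_dvd h2
    rw [h0, sub_zero, dvd_iff h3] at h5
    have h6 : val y ≤ val (b * q z) := h5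
    omega
  · by_cases hlt : val (b * q y) < val y
    · obtain ⟨K, hK⟩ := ih (val (b * q y)) (by omega) (b * q y) le_rfl h0
      refine ⟨(max K (val (b * q y) + 1)) + val y + 1, fun z hz => ?_⟩
      obtain ⟨h1, h2⟩ := hdiv _ z hz
      obtain ⟨h3, h4, -⟩ := near h0 (by omega) h2
      rw [c_eq h0 hlt, c_eq h3 (by omega), hK _ ((pow_dvd_pow _ (le_max_left _ _)).trans h2)]
    · refine ⟨(val (b * q y) + 1) + val y + 1, fun z hz => ?_⟩
      obtain ⟨h1, h2⟩ := hdiv _ z hz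
      obtain ⟨h3, h4, -⟩ := near h0 (by omega) h2
      rw [c_eq_zero (y := y) (by tauto), c_eq_zero]
      rintro ⟨-, h5⟩
      omega

theorem isUnit_iff_not_dvd (x : ℤ_[2]) : IsUnit x ↔ ¬ (2 : ℤ_[2]) ∣ x := by
  have h1 := PadicInt.norm_lt_one_iff_dvd (p := 2) x
  rw [PadicInt.isUnit_iff]
  have h2 := PadicInt.norm_le_one x
  constructor
  · intro h hd
    have := h1.2 (by exact_mod_cast hd)
    linarith
  · intro h
    by_contra hne
    exact h (by exact_mod_cast h1.1 (lt_of_le_of_ne h2 hne))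

theorem S_natCast_ne_zero {m : ℕ} (hm : m ≠ 1) : S ((m : ℕ) : ℤ_[2]) ≠ 0 := by
  rw [S, sub_ne_zero]
  intro h
  have h1 : m ^ 2 = 1 := by exact_mod_cast h
  exact hm (by simpa using h1)

/-- The computation behind the odd case. -/
theorem decode {b β : ℤ_[2]} (hb : b * β = 1) {n : ℕ} {m : ℤ_[2]} {K : ℕ} (hK : 1 ≤ K)
    (hn : ¬ 2 ∣ n) (hm : S m ≠ 0) (hmK : (2 : ℤ_[2]) ^ K ∣ S m) (hmq : (2 : ℤ_[2]) ^ K ∣ q m - β) :
    val (m ^ n) = val m ∧ (2 : ℤ_[2]) ^ K ∣ b * q (m ^ n) - n := by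
  set T : ℤ_[2] := ∑ i ∈ Finset.range n, (m ^ 2) ^ i with hT
  have h1 : S (m ^ n) = S m * T := by
    rw [S, S, hT, mul_geom_sum]
    ring
  have h2 : (2 : ℤ_[2]) ^ K ∣ T - n := by
    have : T - n = ∑ i ∈ Finset.range n, ((m ^ 2) ^ i - 1) := by
      rw [Finset.sum_sub_distrib, hT]
      simp
    rw [this]
    refine Finset.dvd_sum fun i _ => hmK.trans ?_
    have := sub_dvd_pow_sub_pow (m ^ 2) 1 i
    rwa [one_pow] at this
  have h3 : IsUnit T := by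
    rw [isUnit_iff_not_dvd]
    intro hd
    have h4 : (2 : ℤ_[2]) ∣ ((n : ℕ) : ℤ_[2]) := by
      have h5 : (2 : ℤ_[2]) ∣ T - n := (dvd_pow_self _ (by omega)).trans h2
      exact (dvd_sub_right hd).1 h5
    have h6 := (PadicInt.pow_p_dvd_int_iff (p := 2) 1 (n : ℤ)).1 (by
      rw [pow_one]
      exact_mod_cast h4)
    rw [pow_one] at h6
    exact hn (by exact_mod_cast h6)
  have hS : S (m ^ n) ≠ 0 := by
    rw [h1]
    exact mul_ne_zero hm h3.ne_zero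
  have hvT : T.valuation = 0 := by
    by_contra hne
    have h4 : (2 : ℤ_[2]) ^ 1 ∣ T := (dvd_iff h3.ne_zero 1).2 (by omega)
    rw [pow_one] at h4
    exact (isUnit_iff_not_dvd T).1 h3 h4
  have hval : val (m ^ n) = val m := by
    rw [val, h1, PadicInt.valuation_mul hm h3.ne_zero, hvT, add_zero, val]
  have hq : q (m ^ n) = q m * T := by
    have h4 : q (m ^ n) * 2 ^ val m = q m * T * 2 ^ val m := by
      have h5 := q_spec hS
      rw [hval, h1, q_spec hm] at h5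
      rw [← h5]
      ring
    exact mul_right_cancel₀ (pow_ne_zero _ two_ne_zero) h4
  refine ⟨hval, ?_⟩
  have h4 : b * q (m ^ n) - n = b * T * (q m - β) + (b * β - 1) * T + (T - n) := by
    rw [hq]
    ring
  rw [h4, hb, sub_self, zero_mul, add_zero]
  exact dvd_add (dvd_mul_of_dvd_right hmq _) h2

theorem odd_case (p : Ultrafilter ℕ+) (h : E2 p p = p)
    (h1 : ∀ᶠ n : ℕ+ in (p : Filter ℕ+), (n : ℕ) ≠ 1)
    (ho : ∀ᶠ n : ℕ+ in (p : Filter ℕ+), ¬ 2 ∣ (n : ℕ)) : False := by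
  obtain ⟨β, hβ⟩ := exists_lim p (fun m => q ((m : ℕ) : ℤ_[2]))
  have hβu : IsUnit β := by
    obtain ⟨m, hm, hm1⟩ := ((hβ 1).and h1).exists
    rw [isUnit_iff_not_dvd]
    intro hd
    rw [pow_one] at hm
    have h2 : (2 : ℤ_[2]) ∣ q ((m : ℕ) : ℤ_[2]) := (dvd_sub_left hd).1 hm
    exact (isUnit_iff_not_dvd _).1 (q_unit (S_natCast_ne_zero hm1)) h2
  obtain ⟨b, hb⟩ := hβu.exists_left_inv
  refine parity p h (fun x => c b ((x : ℕ) : ℤ_[2])) ?_
  filter_upwards [h1, ho] with n hn1 hno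
  obtain ⟨K₀, hK₀⟩ := c_locally_const b (val ((n : ℕ) : ℤ_[2])) ((n : ℕ) : ℤ_[2]) le_rfl
    (S_natCast_ne_zero hn1)
  set K := max K₀ (val ((n : ℕ) : ℤ_[2]) + 1) with hK
  filter_upwards [h1, ho, hβ K, two_pow_dvd p h h1 ho K] with m hm1 hmo hmβ hmK
  have hmS := S_natCast_ne_zero hm1
  have hmK' : (2 : ℤ_[2]) ^ K ∣ S ((m : ℕ) : ℤ_[2]) := by
    have := (PadicInt.pow_p_dvd_int_iff (p := 2) K ((m : ℤ) ^ 2 - 1)).2 (by exact_mod_cast hmK)
    rw [S]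
    exact_mod_cast this
  obtain ⟨h3, h4⟩ := decode hb (K := K) (by omega) hno hmS hmK' hmβ
  have h5 : (((m ^ (n : ℕ) : ℕ+) : ℕ) : ℤ_[2]) = ((m : ℕ) : ℤ_[2]) ^ (n : ℕ) := by
    rw [PNat.pow_coe, Nat.cast_pow]
  rw [h5]
  obtain ⟨h6, h7, -⟩ := near (S_natCast_ne_zero hn1) (K := K) (by omega) h4
  have h8 : K ≤ val ((m : ℕ) : ℤ_[2]) := (dvd_iff hmS K).1 hmK'
  rw [c_eq h6 (by omega), hK₀ _ ((pow_dvd_pow _ (le_max_left _ _)).trans h4)]

/-- **Main theorem.** The only ultrafilter `p` on the positive integers with `E2 p p = p` is the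
principal ultrafilter of `1`. In particular there is no nonprincipal one. -/
theorem result (p : Ultrafilter ℕ+) : E2 p p = p ↔ p = pure 1 := by
  constructor
  · intro h
    by_contra hne
    have h1 : ∀ᶠ n : ℕ+ in (p : Filter ℕ+), (n : ℕ) ≠ 1 := by
      by_contra hcon
      rw [← Ultrafilter.eventually_not] at hcon
      apply hne
      have h2 : {(1 : ℕ+)} ∈ p := by
        filter_upwards [hcon] with n hn
        rw [not_not] at hn
        exact PNat.coe_eq_one_iff.1 hn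
      refine Ultrafilter.eq_of_le ?_
      rw [Ultrafilter.coe_pure]
      exact le_pure_iff.2 h2
    by_cases he : ∀ᶠ n : ℕ+ in (p : Filter ℕ+), 2 ∣ (n : ℕ)
    · exact even_case p h he
    · rw [← Ultrafilter.eventually_not] at he
      exact odd_case p h h1 he
  · rintro rfl
    refine Ultrafilter.ext fun A => ?_
    rw [mem_E2]
    simp

end Pool.Agent.Results.MP_36fb0d_co.NoIdempotent
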